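import Mathlib

set_option autoImplicit false

namespace Pool.Agent.Results.MP_36fbc5_co.QuotientNets

/-- The incidence structure with point set `V` and block set `B` (a set of subsets of `V`) is an
`(s, r, μ)`-net: there are `s² μ` points, every block has `s μ` points, the block set is the
disjoint union of `r` parallel classes, every parallel class is a partition of the point set, and
two blocks of different parallel classes have exactly `μ` points in common. -/
structure IsNet {V : Type} (B : Set (Set V)) (s r μ : ℕ) : Prop where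
  two_le_s : 2 ≤ s
  one_le_mu : 1 ≤ μ
  three_le_r : 3 ≤ r
  card_points : Nat.card V = s ^ 2 * μ
  card_block : ∀ b ∈ B, b.ncard = s * μ
  classes : ∃ C : Set (Set (Set V)), C.ncard = r ∧ C.PairwiseDisjoint id ∧ ⋃₀ C = B ∧
    (∀ c ∈ C, Setoid.IsPartition c) ∧
    ∀ c ∈ C, ∀ c' ∈ C, c ≠ c' → ∀ b ∈ c, ∀ b' ∈ c', (b ∩ b').ncard = μ

/-- The dual structure: its points are the blocks, its blocks are the pencils of blocks through
the points. -/
def dual {V : Type} (B : Set (Set V)) : Set (Set B) :=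
  Set.range fun v : V => {b : B | v ∈ (b : Set V)}

/-- `(V, B)` is a symmetric `(s, μ)`-net: it is an `(s, s μ, μ)`-net and so is its dual. -/
def IsSymmetricNet {V : Type} (B : Set (Set V)) (s μ : ℕ) : Prop :=
  IsNet B s (s * μ) μ ∧ IsNet (dual B) s (s * μ) μ

/-- Two distinct points are joined if some block contains both. -/
def Joined {V : Type} (B : Set (Set V)) (p q : V) : Prop :=
  p ≠ q ∧ ∃ b ∈ B, p ∈ b ∧ q ∈ b

/-- Two distinct points are non-joined if no block contains both. -/
def NonJoined {V : Type} (B : Set (Set V)) (p q : V) : Prop :=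
  p ≠ q ∧ ¬ ∃ b ∈ B, p ∈ b ∧ q ∈ b

/-- The permutation `g` of the points is an automorphism: it maps the block set onto itself. -/
def IsAutomorphism {V : Type} (B : Set (Set V)) (g : Equiv.Perm V) : Prop :=
  ∀ b : Set V, g '' b ∈ B ↔ b ∈ B

/-- The blocks of the classical symmetric net attached to the affine space `K ^ d` and a line with
direction vector `u`: all hyperplanes `{x | φ x = c}` which contain no translate of the line. -/
def classicalBlocks (K : Type) [Field K] (d : ℕ) (u : Fin d → K) : Set (Set (Fin d → K)) :=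
  {H | (∃ (φ : (Fin d → K) →ₗ[K] K) (c : K), φ ≠ 0 ∧ H = {x | φ x = c}) ∧
    ¬ ∃ v : Fin d → K, ∀ t : K, v + t • u ∈ H}

/-- `(V, B)` is isomorphic to a classical symmetric net. -/
def IsClassical {V : Type} (B : Set (Set V)) : Prop :=
  ∃ (K : Type) (_ : Field K) (d : ℕ) (u : Fin d → K) (e : V ≃ (Fin d → K)),
    Finite K ∧ 2 ≤ d ∧ u ≠ 0 ∧ ∀ b : Set V, b ∈ B ↔ e '' b ∈ classicalBlocks K d u

/-! ### Nets from biadditive maps -/

section bilinear

variable {X Y W : Type} [AddCommGroup X] [AddCommGroup Y] [AddCommGroup W]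

/-- the block `{(x, w) | w = β x m + c}` -/
def blk (β : X →+ Y →+ W) (m : Y) (c : W) : Set (X × W) := {p | p.2 = β p.1 m + c}

/-- all blocks -/
def blocks (β : X →+ Y →+ W) : Set (Set (X × W)) := {b | ∃ m c, b = blk β m c}

theorem fiber_card [Finite X] (f : X →+ W) (hf : Function.Surjective f) (w : W) :
    {x | f x = w}.ncard * Nat.card W = Nat.card X := by
  obtain ⟨x0, hx0⟩ := hf w
  have h1 : {x | f x = w} = (fun y => x0 + y) '' (f.ker : Set X) := by
    ext x
    simp only [Set.mem_ofPred_eq, Set.mem_image, SetLike.mem_coe, AddMonoidHom.mem_ker]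
    constructor
    · intro h
      exact ⟨x - x0, by rw [map_sub, h, hx0, sub_self], by abel⟩
    · rintro ⟨y, hy, rfl⟩
      rw [map_add, hx0, hy, add_zero]
  rw [h1, Set.ncard_image_of_injective _ (add_right_injective x0)]
  have h2 := AddSubgroup.card_mul_index f.ker
  rw [AddSubgroup.index_ker, AddMonoidHom.range_eq_top.2 hf] at h2
  rw [← h2]
  have h3 : Nat.card (⊤ : AddSubgroup W) = Nat.card W := by simp
  rw [h3]
  rfl

theorem mem_blk (β : X →+ Y →+ W) (m : Y) (c : W) (p : X × W) :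
    p ∈ blk β m c ↔ p.2 = β p.1 m + c := Iff.rfl

theorem blk_eq_image (β : X →+ Y →+ W) (m : Y) (c : W) :
    blk β m c = (fun x => (x, β x m + c)) '' Set.univ := by
  ext ⟨x, w⟩
  simp only [mem_blk, Set.image_univ, Set.mem_range, Prod.mk.injEq]
  constructor
  · intro h
    exact ⟨x, rfl, h.symm⟩
  · rintro ⟨y, rfl, rfl⟩
    rfl

theorem blk_ncard (β : X →+ Y →+ W) (m : Y) (c : W) : (blk β m c).ncard = Nat.card X := by
  rw [blk_eq_image, Set.ncard_image_of_injective _ (fun x y h => (Prod.mk.inj h).1),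
    Set.ncard_univ]

theorem blk_inj [Nontrivial W] (β : X →+ Y →+ W)
    (hY : ∀ m, m ≠ 0 → Function.Surjective fun x => β x m) {m m' : Y} {c c' : W}
    (h : blk β m c = blk β m' c') : m = m' ∧ c = c' := by
  have hc : c = c' := by
    have : ((0 : X), c) ∈ blk β m' c' := by
      rw [← h, mem_blk]; simp
    rw [mem_blk] at this
    simpa using this
  subst hc
  refine ⟨?_, rfl⟩
  by_contra hne
  obtain ⟨w, hw⟩ := exists_ne (0 : W)
  obtain ⟨x, hx⟩ := hY (m - m') (sub_ne_zero.2 hne) w
  apply hw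
  have : (x, β x m + c) ∈ blk β m' c := by
    rw [← h, mem_blk]
  rw [mem_blk] at this
  simp only [add_left_inj] at this
  rw [← hx]
  simp only [map_sub, this, sub_self]

theorem isNet_blocks [Finite X] [Finite Y] [Finite W] [Nontrivial W] (β : X →+ Y →+ W)
    (hY : ∀ m, m ≠ 0 → Function.Surjective fun x => β x m) (s μ : ℕ)
    (hs : Nat.card W = s) (hμ : Nat.card X = s * μ) (hXY : Nat.card X = Nat.card Y)
    (h3 : 3 ≤ s * μ) : IsNet (blocks β) s (s * μ) μ := by
  have hs2 : 2 ≤ s := by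
    rw [← hs]
    exact Finite.one_lt_card
  have hμ1 : 1 ≤ μ := by
    rcases Nat.eq_zero_or_pos μ with h | h
    · rw [h] at h3; omega
    · exact h
  refine ⟨hs2, hμ1, h3, ?_, ?_, ?_⟩
  · rw [Nat.card_prod, hs, hμ]; ring
  · rintro b ⟨m, c, rfl⟩
    rw [blk_ncard, hμ]
  · refine ⟨Set.range fun m : Y => Set.range fun c : W => blk β m c, ?_, ?_, ?_, ?_, ?_⟩
    · rw [← Set.image_univ, Set.ncard_image_of_injective, Set.ncard_univ, ← hXY, hμ]
      intro m m' h
      have : blk β m 0 ∈ Set.range fun c : W => blk β m' c := by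
        simp only at h
        rw [← h]
        exact ⟨0, rfl⟩
      obtain ⟨c, hc⟩ := this
      exact (blk_inj β hY hc.symm).1
    · rintro _ ⟨m, rfl⟩ _ ⟨m', rfl⟩ hne
      simp only [Function.onFun, id]
      rw [Set.disjoint_left]
      rintro _ ⟨c, rfl⟩ ⟨c', h⟩
      exact hne (by rw [(blk_inj β hY h).1])
    · ext b
      simp only [Set.mem_sUnion, Set.mem_range, exists_exists_eq_and]
      constructor
      · rintro ⟨m, c, rfl⟩
        exact ⟨m, c, rfl⟩
      · rintro ⟨m, c, rfl⟩
        exact ⟨m, c, rfl⟩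
    · rintro _ ⟨m, rfl⟩
      constructor
      · rintro ⟨c, hc⟩
        have : ((0 : X), c) ∈ (∅ : Set (X × W)) := by
          rw [← hc, mem_blk]; simp
        exact this
      · rintro ⟨x, w⟩
        refine ⟨blk β m (w - β x m), ⟨⟨_, rfl⟩, ?_⟩, ?_⟩
        · rw [mem_blk]; simp
        · rintro _ ⟨⟨c, rfl⟩, h⟩
          rw [mem_blk] at h
          simp only at h
          have : c = w - β x m := by rw [h]; abel
          rw [this]
    · rintro _ ⟨m, rfl⟩ _ ⟨m', rfl⟩ hne _ ⟨c, rfl⟩ _ ⟨c', rfl⟩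
      have hmm : m - m' ≠ 0 := by
        intro h
        exact hne (by rw [sub_eq_zero.1 h])
      have key := fiber_card (β.flip (m - m')) (hY _ hmm) (c' - c)
      have hset : blk β m c ∩ blk β m' c' =
          (fun x => (x, β x m + c)) '' {x | β.flip (m - m') x = c' - c} := by
        ext ⟨x, w⟩
        have hfl : β.flip (m - m') = β.flip m - β.flip m' := map_sub _ _ _
        simp only [Set.mem_inter_iff, mem_blk, Set.mem_image, Set.mem_ofPred_eq, Prod.mk.injEq,
          hfl, AddMonoidHom.sub_apply, AddMonoidHom.flip_apply]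
        constructor
        · rintro ⟨h1, h2⟩
          refine ⟨x, ?_, rfl, h1.symm⟩
          rw [h1] at h2
          rw [sub_eq_sub_iff_add_eq_add, h2, add_comm]
        · rintro ⟨y, hy, rfl, rfl⟩
          refine ⟨rfl, ?_⟩
          rw [sub_eq_sub_iff_add_eq_add] at hy
          rw [hy, add_comm]
      rw [hset, Set.ncard_image_of_injective _ (fun x y h => (Prod.mk.inj h).1)]
      rw [hs, hμ, mul_comm s μ] at key
      exact Nat.eq_of_mul_eq_mul_right (by omega) key

/-- nets are transported by bijections of the point sets -/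
theorem IsNet.transport {V V' : Type} (e : V ≃ V') {B : Set (Set V)} {B' : Set (Set V')}
    (h : B' = (fun b => e '' b) '' B) {s r μ : ℕ} (hB : IsNet B s r μ) : IsNet B' s r μ := by
  have hinj : Function.Injective (fun b : Set V => e '' b) := e.injective.image_injective
  have hinj2 : Function.Injective (fun c : Set (Set V) => (fun b : Set V => e '' b) '' c) :=
    hinj.image_injective
  obtain ⟨h1, h2, h3, h4, h5, C, c1, c2, c3, c4, c5⟩ := hB
  refine ⟨h1, h2, h3, ?_, ?_, (fun c => (fun b : Set V => e '' b) '' c) '' C, ?_, ?_, ?_, ?_, ?_⟩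
  · rw [← h4]
    exact (Nat.card_congr e).symm
  · rw [h]
    rintro _ ⟨b, hb, rfl⟩
    simp only
    rw [Set.ncard_image_of_injective _ e.injective]
    exact h5 b hb
  · rw [Set.ncard_image_of_injective _ hinj2, c1]
  · rintro _ ⟨c, hc, rfl⟩ _ ⟨c', hc', rfl⟩ hne
    have hne' : c ≠ c' := fun h => hne (by rw [h])
    have := c2 hc hc' hne'
    simp only [Function.onFun, id] at this ⊢
    exact (Set.disjoint_image_iff hinj).2 this
  · rw [h, ← c3]
    ext b
    simp only [Set.mem_sUnion, Set.mem_image, exists_exists_and_eq_and]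
    constructor
    · rintro ⟨c, hc, b', hb', rfl⟩
      exact ⟨b', ⟨c, hc, hb'⟩, rfl⟩
    · rintro ⟨b', ⟨c, hc, hb'⟩, rfl⟩
      exact ⟨c, hc, b', hb', rfl⟩
  · rintro _ ⟨c, hc, rfl⟩
    obtain ⟨k1, k2⟩ := c4 c hc
    constructor
    · rintro ⟨b, hb, hb'⟩
      simp only [Set.image_eq_empty] at hb'
      rw [hb'] at hb
      exact k1 hb
    · intro a
      obtain ⟨b, ⟨hb1, hb2⟩, hb3⟩ := k2 (e.symm a)
      refine ⟨e '' b, ⟨⟨b, hb1, rfl⟩, ⟨e.symm a, hb2, by simp⟩⟩, ?_⟩
      rintro _ ⟨⟨b', hb', rfl⟩, hb''⟩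
      simp only at hb'' ⊢
      obtain ⟨v, hv, hv'⟩ := hb''
      have : v = e.symm a := by rw [← hv']; simp
      rw [hb3 b' ⟨hb', by rw [← this]; exact hv⟩]
  · rintro _ ⟨c, hc, rfl⟩ _ ⟨c', hc', rfl⟩ hne _ ⟨b, hb, rfl⟩ _ ⟨b', hb', rfl⟩
    have hne' : c ≠ c' := fun h => hne (by rw [h])
    simp only
    rw [← Set.image_inter e.injective, Set.ncard_image_of_injective _ e.injective]
    exact c5 c hc c' hc' hne' b hb b' hb'

theorem isSymmetricNet_blocks [Finite X] [Finite Y] [Finite W] [Nontrivial W] (β : X →+ Y →+ W)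
    (hY : ∀ m, m ≠ 0 → Function.Surjective fun x => β x m)
    (hX : ∀ x, x ≠ 0 → Function.Surjective fun m => β x m) (s μ : ℕ)
    (hs : Nat.card W = s) (hμ : Nat.card X = s * μ) (hXY : Nat.card X = Nat.card Y)
    (h3 : 3 ≤ s * μ) : IsSymmetricNet (blocks β) s μ := by
  refine ⟨isNet_blocks β hY s μ hs hμ hXY h3, ?_⟩
  -- the dual is the net of the negative transposed map
  have hX' : ∀ m, m ≠ 0 → Function.Surjective fun x => (-β.flip) x m := by
    intro m hm w
    obtain ⟨x, hx⟩ := hX m hm (-w)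
    refine ⟨x, ?_⟩
    simp only at hx
    simp only [AddMonoidHom.neg_apply, AddMonoidHom.flip_apply, hx, neg_neg]
  have hnet : IsNet (blocks (-β.flip)) s (s * μ) μ :=
    isNet_blocks (-β.flip) hX' s μ hs (by rw [← hXY, hμ]) hXY.symm h3
  let f : Y × W → blocks β := fun p => ⟨blk β p.1 p.2, p.1, p.2, rfl⟩
  have hf : Function.Bijective f := by
    constructor
    · rintro ⟨m, c⟩ ⟨m', c'⟩ h
      have := Subtype.ext_iff.1 h
      obtain ⟨h1, h2⟩ := blk_inj β hY this
      simp only at h1 h2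
      rw [h1, h2]
    · rintro ⟨_, m, c, rfl⟩
      exact ⟨(m, c), rfl⟩
  refine IsNet.transport (Equiv.ofBijective f hf) ?_ hnet
  have key : ∀ (x : X) (w : W), {b : blocks β | (x, w) ∈ (b : Set (X × W))} =
      (Equiv.ofBijective f hf) '' blk (-β.flip) x w := by
    intro x w
    ext b
    obtain ⟨⟨m, c⟩, rfl⟩ := hf.2 b
    simp only [Set.mem_ofPred_eq, Set.mem_image, Equiv.ofBijective_apply]
    constructor
    · intro h
      refine ⟨(m, c), ?_, rfl⟩
      rw [mem_blk]
      simp only [AddMonoidHom.neg_apply, AddMonoidHom.flip_apply]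
      have h' : w = β x m + c := h
      rw [h']; abel
    · rintro ⟨p, hp, hpf⟩
      have := hf.1 hpf
      subst this
      rw [mem_blk] at hp
      simp only [AddMonoidHom.neg_apply, AddMonoidHom.flip_apply] at hp
      change w = β x m + c
      rw [hp]; abel
  ext t
  constructor
  · rintro ⟨⟨x, w⟩, rfl⟩
    exact ⟨blk (-β.flip) x w, ⟨x, w, rfl⟩, (key x w).symm⟩
  · rintro ⟨_, ⟨x, w, rfl⟩, rfl⟩
    exact ⟨(x, w), key x w⟩

theorem joined_iff (β : X →+ Y →+ W)
    (hX : ∀ x, x ≠ 0 → Function.Surjective fun m => β x m) (p q : X × W) :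
    Joined (blocks β) p q ↔ p.1 ≠ q.1 := by
  obtain ⟨x, w⟩ := p
  obtain ⟨x', w'⟩ := q
  constructor
  · rintro ⟨hne, _, ⟨m, c, rfl⟩, h1, h2⟩ h
    rw [mem_blk] at h1 h2
    simp only at h h1 h2
    apply hne
    rw [h1, h2, h]
  · intro h
    simp only at h
    refine ⟨fun h' => h (by rw [(Prod.mk.inj h').1]), ?_⟩
    obtain ⟨m, hm⟩ := hX (x - x') (sub_ne_zero.2 h) (w - w')
    refine ⟨blk β m (w - β x m), ⟨m, _, rfl⟩, ?_, ?_⟩
    · rw [mem_blk]; simp
    · rw [mem_blk]
      simp only at hm ⊢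
      rw [map_sub, AddMonoidHom.sub_apply] at hm
      have : β x' m = β x m - (w - w') := by rw [← hm]; abel
      rw [this]; abel

theorem nonJoined_iff (β : X →+ Y →+ W)
    (hX : ∀ x, x ≠ 0 → Function.Surjective fun m => β x m) (p q : X × W) :
    NonJoined (blocks β) p q ↔ p.1 = q.1 ∧ p.2 ≠ q.2 := by
  have h := joined_iff β hX p q
  unfold Joined at h
  unfold NonJoined
  constructor
  · rintro ⟨h1, h2⟩
    have h3 : p.1 = q.1 := by
      by_contra h3
      exact h2 (h.2 h3).2
    exact ⟨h3, fun h4 => h1 (Prod.ext h3 h4)⟩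
  · rintro ⟨h1, h2⟩
    refine ⟨fun h3 => h2 (by rw [h3]), fun h3 => ?_⟩
    exact h.1 ⟨fun h4 => h2 (by rw [h4]), h3⟩ h1

/-- the general automorphism `(x, w) ↦ (A x + u, C w + β (A x) n + z)` -/
def autMap (β : X →+ Y →+ W) (A : X ≃+ X) (C : W ≃+ W) (u : X) (z : W) (n : Y) :
    Equiv.Perm (X × W) where
  toFun p := (A p.1 + u, C p.2 + β (A p.1) n + z)
  invFun p := (A.symm (p.1 - u), C.symm (p.2 - z - β (p.1 - u) n))
  left_inv p := by
    obtain ⟨x, w⟩ := p
    simp only [add_sub_cancel_right, AddEquiv.symm_apply_apply]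
  right_inv p := by
    obtain ⟨x, w⟩ := p
    simp only [AddEquiv.apply_symm_apply, Prod.mk.injEq]
    constructor <;> abel

theorem autMap_image (β : X →+ Y →+ W) (A : X ≃+ X) (A' : Y ≃+ Y) (C : W ≃+ W) (u : X) (z : W)
    (n : Y) (hA : ∀ x m, β (A x) (A' m) = C (β x m)) (m : Y) (c : W) :
    autMap β A C u z n '' blk β m c =
      blk β (A' m + n) (C c + z - β u (A' m + n)) := by
  ext ⟨x, w⟩
  rw [Equiv.image_eq_preimage_symm, Set.mem_preimage, mem_blk, mem_blk]
  change C.symm (w - z - β (x - u) n) = β (A.symm (x - u)) m + c ↔ _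
  rw [AddEquiv.symm_apply_eq, map_add, ← hA, AddEquiv.apply_symm_apply]
  simp only [map_add, map_sub, AddMonoidHom.sub_apply]
  constructor
  · intro h
    have h2 : w = (w - z - (β x n - β u n)) + z + (β x n - β u n) := by abel
    rw [h2, h]; abel
  · intro h
    rw [h]; abel

theorem autMap_isAutomorphism (β : X →+ Y →+ W) (A : X ≃+ X) (A' : Y ≃+ Y) (C : W ≃+ W)
    (u : X) (z : W) (n : Y) (hA : ∀ x m, β (A x) (A' m) = C (β x m)) :
    IsAutomorphism (blocks β) (autMap β A C u z n) := by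
  intro b
  constructor
  · rintro ⟨m, c, h⟩
    refine ⟨A'.symm (m - n), C.symm (c + β u m - z), ?_⟩
    have h2 := autMap_image β A A' C u z n hA (A'.symm (m - n)) (C.symm (c + β u m - z))
    rw [AddEquiv.apply_symm_apply, AddEquiv.apply_symm_apply, sub_add_cancel] at h2
    have h3 : c + β u m - z + z - β u m = c := by abel
    rw [h3, ← h] at h2
    exact ((autMap β A C u z n).injective.image_injective h2).symm
  · rintro ⟨m, c, rfl⟩
    exact ⟨_, _, autMap_image β A A' C u z n hA m c⟩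

end bilinear

/-! ### Classical nets have special parameters -/

theorem classical_card {V : Type} {B : Set (Set V)} (h : IsClassical B) {b : Set V} (hb : b ∈ B) :
    ∃ q d : ℕ, Nat.card V = q ^ d ∧ b.ncard * q = Nat.card V ∧ 2 ≤ q := by
  obtain ⟨K, hK, d, u, e, hfin, hd, hu, hB⟩ := h
  refine ⟨Nat.card K, d, ?_, ?_, Finite.one_lt_card⟩
  · rw [Nat.card_congr e, Nat.card_fun]
    simp
  · obtain ⟨⟨φ, c, hφ, hH⟩, -⟩ := (hB b).1 hb
    have h1 : b.ncard = {x | φ x = c}.ncard := by
      rw [← hH, Set.ncard_image_of_injective _ e.injective]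
    have hsurj : Function.Surjective φ := LinearMap.surjective hφ
    rw [h1, Nat.card_congr e]
    exact fiber_card φ.toAddMonoidHom hsurj c


/-! ### Quotients of a finite field by the range of a polynomial in the Frobenius map -/

section field

open Polynomial

variable (p : ℕ) [Fact p.Prime] (E : Type) [Field E] [Algebra (ZMod p) E]

/-- the Frobenius map as a linear map -/
noncomputable def frL [Finite E] : E →ₗ[ZMod p] E :=
  (FiniteField.frobeniusAlgHom (ZMod p) E).toLinearMap

variable [Finite E]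

theorem frL_apply (z : E) : frL p E z = z ^ p := by
  simp [frL, FiniteField.frobeniusAlgHom, ZMod.card]

theorem frL_pow_apply (k : ℕ) (z : E) : (frL p E ^ k) z = z ^ (p ^ k) := by
  induction k with
  | zero => simp
  | succ k ih => rw [pow_succ', Module.End.mul_apply, ih, frL_apply, ← pow_mul, pow_succ]

omit [Finite E] in
/-- the linearized polynomial -/
theorem lin_spec (h : (ZMod p)[X]) (h0 : h ≠ 0) : ∃ H : E[X], H ≠ 0 ∧
    H.natDegree ≤ p ^ h.natDegree ∧
    ∀ z, H.eval z = ∑ i ∈ Finset.range (h.natDegree + 1),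
      algebraMap (ZMod p) E (h.coeff i) * z ^ (p ^ i) := by
  have hp : 1 < p := (Fact.out : p.Prime).one_lt
  refine ⟨∑ i ∈ Finset.range (h.natDegree + 1),
    C (algebraMap (ZMod p) E (h.coeff i)) * X ^ (p ^ i), ?_, ?_, ?_⟩
  · intro hH
    have h1 := congrArg (fun H => H.coeff (p ^ h.natDegree)) hH
    simp only [finsetSum_coeff, coeff_C_mul, coeff_X_pow, coeff_zero] at h1
    rw [Finset.sum_eq_single h.natDegree] at h1
    · simp only [if_true, mul_one] at h1
      have h2 := (algebraMap (ZMod p) E).injective (h1.trans (map_zero _).symm)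
      exact h0 (leadingCoeff_eq_zero.1 h2)
    · intro i _ hi
      rw [if_neg, mul_zero]
      intro h2
      exact hi (Nat.pow_right_injective hp h2).symm
    · intro h2
      simp at h2
  · apply natDegree_sum_le_of_forall_le
    intro i hi
    rw [Finset.mem_range] at hi
    refine (natDegree_C_mul_X_pow_le _ _).trans ?_
    exact Nat.pow_le_pow_right (by omega) (by omega)
  · intro z
    simp [eval_finsetSum]

theorem ker_card_le (h : (ZMod p)[X]) (h0 : h ≠ 0) :
    Nat.card (LinearMap.ker (aeval (frL p E) h)) ≤ p ^ h.natDegree := by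
  classical
  obtain ⟨H, H0, H1, H2⟩ := lin_spec p E h h0
  have hev : ∀ z, H.eval z = aeval (frL p E) h z := by
    intro z
    rw [H2, aeval_eq_sum_range, LinearMap.sum_apply]
    apply Finset.sum_congr rfl
    intro i _
    rw [LinearMap.smul_apply, frL_pow_apply, Algebra.smul_def]
  have h1 : ((LinearMap.ker (aeval (frL p E) h) : Set E)) ⊆ (H.roots.toFinset : Set E) := by
    intro z hz
    rw [SetLike.mem_coe, LinearMap.mem_ker] at hz
    simp only [Finset.mem_coe, Multiset.mem_toFinset]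
    rw [mem_roots H0, IsRoot.def, hev, hz]
  calc Nat.card (LinearMap.ker (aeval (frL p E) h))
      = (LinearMap.ker (aeval (frL p E) h) : Set E).ncard := rfl
    _ ≤ (H.roots.toFinset : Set E).ncard := Set.ncard_le_ncard h1 (Finset.finite_toSet _)
    _ = H.roots.toFinset.card := Set.ncard_coe_finset _
    _ ≤ Multiset.card H.roots := Multiset.toFinset_card_le _
    _ ≤ H.natDegree := card_roots' H
    _ ≤ p ^ h.natDegree := H1

/-- `Φ ^ n = 1` on the field of order `p ^ n` -/
theorem frL_pow_n (n : ℕ) (hE : Nat.card E = p ^ n) : frL p E ^ n = 1 := by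
  apply LinearMap.ext
  intro z
  have := Fintype.ofFinite E
  rw [frL_pow_apply, ← hE, Nat.card_eq_fintype_card, FiniteField.pow_card]
  rfl

theorem ker_card (f h : (ZMod p)[X]) (n : ℕ) (hn : n ≠ 0) (hE : Nat.card E = p ^ n)
    (hfh : f * h = X ^ n - 1) : Nat.card (LinearMap.ker (aeval (frL p E) f)) = p ^ f.natDegree := by
  have hne : (X ^ n - 1 : (ZMod p)[X]) ≠ 0 := X_pow_sub_C_ne_zero (Nat.pos_of_ne_zero hn) 1
  have hf0 : f ≠ 0 := by
    rintro rfl
    exact hne (by rw [← hfh, zero_mul])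
  have hh0 : h ≠ 0 := by
    rintro rfl
    exact hne (by rw [← hfh, mul_zero])
  have hdeg : f.natDegree + h.natDegree = n := by
    rw [← natDegree_mul hf0 hh0, hfh]
    exact natDegree_X_pow_sub_C
  have h1 := ker_card_le p E f hf0
  have h2 := ker_card_le p E h hh0
  have h3 : LinearMap.range (aeval (frL p E) h) ≤ LinearMap.ker (aeval (frL p E) f) := by
    rintro _ ⟨z, rfl⟩
    rw [LinearMap.mem_ker, ← Module.End.mul_apply, ← map_mul, hfh]
    simp [frL_pow_n p E n hE]
  have h4 : Nat.card (LinearMap.range (aeval (frL p E) h)) ≤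
      Nat.card (LinearMap.ker (aeval (frL p E) f)) :=
    Nat.card_mono (Set.toFinite _) h3
  have h5 : Nat.card (LinearMap.ker (aeval (frL p E) h)) *
      Nat.card (LinearMap.range (aeval (frL p E) h)) = p ^ n := by
    rw [← hE]
    have h6 := Submodule.card_eq_card_quotient_mul_card (LinearMap.ker (aeval (frL p E) h))
    rw [h6, Nat.card_congr (LinearMap.quotKerEquivRange (aeval (frL p E) h)).toEquiv]
  apply le_antisymm h1
  by_contra hlt
  push Not at hlt
  have hpos : 0 < p ^ h.natDegree := pow_pos (Fact.out : p.Prime).pos _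
  have h7 : p ^ n < p ^ n := by
    calc p ^ n = Nat.card (LinearMap.ker (aeval (frL p E) h)) *
          Nat.card (LinearMap.range (aeval (frL p E) h)) := h5.symm
      _ ≤ p ^ h.natDegree * Nat.card (LinearMap.ker (aeval (frL p E) f)) :=
          Nat.mul_le_mul h2 h4
      _ < p ^ h.natDegree * p ^ f.natDegree := Nat.mul_lt_mul_of_pos_left hlt hpos
      _ = p ^ n := by rw [← pow_add, add_comm, hdeg]
  exact lt_irrefl _ h7

/-- the subspace we factor out -/
noncomputable def U (f : (ZMod p)[X]) : Submodule (ZMod p) E := LinearMap.range (aeval (frL p E) f)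

theorem card_quot (f h : (ZMod p)[X]) (n : ℕ) (hn : n ≠ 0) (hE : Nat.card E = p ^ n)
    (hfh : f * h = X ^ n - 1) : Nat.card (E ⧸ U p E f) = p ^ f.natDegree := by
  have h1 := ker_card p E f h n hn hE hfh
  have h2 := Submodule.card_eq_card_quotient_mul_card (LinearMap.ker (aeval (frL p E) f))
  rw [Nat.card_congr (LinearMap.quotKerEquivRange (aeval (frL p E) f)).toEquiv, h1] at h2
  have h3 := Submodule.card_eq_card_quotient_mul_card (U p E f)
  rw [h2] at h3
  have h4 : 0 < Nat.card (U p E f) := Nat.card_pos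
  change p ^ f.natDegree * Nat.card (U p E f) = _ at h3
  rw [mul_comm] at h3
  exact (Nat.eq_of_mul_eq_mul_left h4 h3).symm

/-- the Frobenius map as a linear equivalence -/
noncomputable def frE : E ≃ₗ[ZMod p] E :=
  LinearEquiv.ofInjectiveEndo (frL p E) (by
    intro x y h
    rw [frL_apply, frL_apply] at h
    have : CharP E p := charP_of_injective_algebraMap (algebraMap (ZMod p) E).injective p
    exact frobenius_inj E p h)

theorem frE_apply (z : E) : frE p E z = z ^ p := frL_apply p E z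

theorem U_map (f : (ZMod p)[X]) : (U p E f).map (frE p E : E →ₗ[ZMod p] E) = U p E f := by
  have hle : (U p E f).map (frE p E : E →ₗ[ZMod p] E) ≤ U p E f := by
    rintro _ ⟨_, ⟨z, rfl⟩, rfl⟩
    refine ⟨frL p E z, ?_⟩
    have h2 : aeval (frL p E) (f * X) = aeval (frL p E) (X * f) := by rw [mul_comm]
    rw [map_mul, map_mul, aeval_X] at h2
    exact LinearMap.congr_fun h2 z
  apply Submodule.eq_of_le_of_finrank_eq hle
  exact LinearEquiv.finrank_map_eq (frE p E) (U p E f)

/-- the map induced by the Frobenius map on the quotient -/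
noncomputable def Cq (f : (ZMod p)[X]) : (E ⧸ U p E f) ≃ₗ[ZMod p] (E ⧸ U p E f) :=
  Submodule.Quotient.equiv _ _ (frE p E) (U_map p E f)

theorem Cq_mk (f : (ZMod p)[X]) (z : E) :
    Cq p E f ((U p E f).mkQ z) = (U p E f).mkQ (z ^ p) := by
  rw [← frE_apply]
  rfl

theorem aeval_Cq (f h : (ZMod p)[X]) (z : E) :
    aeval (Cq p E f : (E ⧸ U p E f) →ₗ[ZMod p] (E ⧸ U p E f)) h ((U p E f).mkQ z) =
      (U p E f).mkQ (aeval (frL p E) h z) := by
  induction h using Polynomial.induction_on generalizing z with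
  | C a => simp
  | add a b ha hb => simp only [map_add, LinearMap.add_apply, ha, hb]
  | monomial k a ih =>
    have e1 : (C a * X ^ (k + 1) : (ZMod p)[X]) = (C a * X ^ k) * X := by ring
    rw [e1, map_mul (aeval (Cq p E f : (E ⧸ U p E f) →ₗ[ZMod p] (E ⧸ U p E f))),
      map_mul (aeval (frL p E)), Module.End.mul_apply, Module.End.mul_apply,
      aeval_X, aeval_X, ← ih, frL_apply]
    congr 1
    exact Cq_mk p E f z

theorem dvd_of_aeval_eq_zero (f h : (ZMod p)[X]) (hf : Irreducible f) (w : E ⧸ U p E f)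
    (hw : w ≠ 0) (h0 : aeval (Cq p E f : (E ⧸ U p E f) →ₗ[ZMod p] (E ⧸ U p E f)) h w = 0) :
    f ∣ h := by
  by_contra hdvd
  obtain ⟨a, b, hab⟩ := (Irreducible.coprime_iff_not_dvd hf).2 hdvd
  apply hw
  obtain ⟨z, rfl⟩ := (U p E f).mkQ_surjective w
  have hf0 : aeval (Cq p E f : (E ⧸ U p E f) →ₗ[ZMod p] (E ⧸ U p E f)) f ((U p E f).mkQ z) = 0 := by
    rw [aeval_Cq]
    exact (Submodule.Quotient.mk_eq_zero _).2 ⟨z, rfl⟩
  have h1 := congrArg (fun q => aeval (Cq p E f : (E ⧸ U p E f) →ₗ[ZMod p] (E ⧸ U p E f)) q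
    ((U p E f).mkQ z)) hab
  simp only [map_add, map_mul, LinearMap.add_apply, Module.End.mul_apply, hf0, h0, map_zero,
    add_zero, map_one, Module.End.one_apply] at h1
  exact h1.symm

theorem transitive_Cq (f h : (ZMod p)[X]) (n : ℕ) (hn : n ≠ 0) (hE : Nat.card E = p ^ n)
    (hfh : f * h = X ^ n - 1) (hf : Irreducible f) (K : Type) [Field K] [Algebra (ZMod p) K]
    (g : K) (hg : aeval g f = 0) (hord : orderOf g = p ^ f.natDegree - 1)
    (w w' : E ⧸ U p E f) (hw : w ≠ 0) (hw' : w' ≠ 0) :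
    ∃ k : ℕ, ((Cq p E f : (E ⧸ U p E f) →ₗ[ZMod p] (E ⧸ U p E f)) ^ k) w = w' := by
  classical
  have hfinq : Finite (E ⧸ U p E f) := Finite.of_surjective _ (U p E f).mkQ_surjective
  set c : (E ⧸ U p E f) →ₗ[ZMod p] (E ⧸ U p E f) := (Cq p E f).toLinearMap with hc
  have hinjc : ∀ k : ℕ, Function.Injective (c ^ k : (E ⧸ U p E f) →ₗ[ZMod p] (E ⧸ U p E f)) := by
    intro k
    induction k with
    | zero => exact fun x y h => h
    | succ k ih =>
      rw [pow_succ]
      exact ih.comp (Cq p E f).injective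
  let F : Fin (p ^ f.natDegree - 1) → {v : E ⧸ U p E f // v ≠ 0} := fun k =>
    ⟨(c ^ (k : ℕ)) w, fun h0 => hw (hinjc k (h0.trans (map_zero _).symm))⟩
  have hF : Function.Injective F := by
    intro a b hab
    have h1 : (c ^ (a : ℕ)) w = (c ^ (b : ℕ)) w := Subtype.ext_iff.1 hab
    have h2 : aeval c (X ^ (a : ℕ) - X ^ (b : ℕ) : (ZMod p)[X]) w = 0 := by
      simp [h1]
    obtain ⟨q, hq⟩ := dvd_of_aeval_eq_zero p E f _ hf w hw h2
    have h3 := congrArg (aeval g) hq
    rw [map_mul, hg, zero_mul] at h3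
    simp only [map_sub, map_pow, aeval_X] at h3
    have h4 : g ^ (a : ℕ) = g ^ (b : ℕ) := sub_eq_zero.1 h3
    apply Fin.ext
    apply pow_injOn_Iio_orderOf (x := g)
    · rw [Set.mem_Iio, hord]; exact a.2
    · rw [Set.mem_Iio, hord]; exact b.2
    · exact h4
  have hcard : Nat.card {v : E ⧸ U p E f // v ≠ 0} ≤ Nat.card (Fin (p ^ f.natDegree - 1)) := by
    have h5 : Nat.card {v : E ⧸ U p E f // v ≠ 0} = Nat.card (E ⧸ U p E f) - 1 := by
      have := Fintype.ofFinite (E ⧸ U p E f)
      rw [Nat.card_eq_fintype_card, Nat.card_eq_fintype_card, Fintype.card_subtype_compl,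
        Fintype.card_subtype_eq]
    rw [h5, card_quot p E f h n hn hE hfh, Nat.card_fin]
  obtain ⟨k, hk⟩ := (hF.bijective_of_nat_card_le hcard).2 ⟨w', hw'⟩
  exact ⟨k, Subtype.ext_iff.1 hk⟩

/-- the biadditive map `(x, m) ↦ x m mod U` -/
noncomputable def beta (f : (ZMod p)[X]) : E →+ E →+ (E ⧸ U p E f) :=
  (AddMonoidHom.compHom (U p E f).mkQ.toAddMonoidHom).comp AddMonoidHom.mul

theorem beta_apply' (f : (ZMod p)[X]) (x m : E) :
    beta p E f x m = (U p E f).mkQ (x * m) := rfl

theorem beta_surj_left (f : (ZMod p)[X]) (m : E) (hm : m ≠ 0) :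
    Function.Surjective fun x => beta p E f x m := by
  intro w
  obtain ⟨z, rfl⟩ := (U p E f).mkQ_surjective w
  refine ⟨z / m, ?_⟩
  simp only
  rw [beta_apply', div_mul_cancel₀ _ hm]

theorem beta_surj_right (f : (ZMod p)[X]) (x : E) (hx : x ≠ 0) :
    Function.Surjective fun m => beta p E f x m := by
  intro w
  obtain ⟨z, rfl⟩ := (U p E f).mkQ_surjective w
  refine ⟨z / x, ?_⟩
  simp only
  rw [beta_apply', mul_div_cancel₀ _ hx]

/-- powers of the Frobenius map -/
noncomputable def frP (k : ℕ) : E ≃+ E := ((frE p E) ^ k : E ≃ₗ[ZMod p] E).toAddEquiv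

theorem frP_apply (k : ℕ) (z : E) : frP p E k z = z ^ (p ^ k) := by
  change ((frE p E) ^ k : E ≃ₗ[ZMod p] E) z = _
  induction k generalizing z with
  | zero => simp
  | succ k ih => rw [pow_succ, LinearEquiv.mul_apply, ih, frE_apply, ← pow_mul, ← pow_succ']

/-- powers of the induced map -/
noncomputable def CqP (f : (ZMod p)[X]) (k : ℕ) : (E ⧸ U p E f) ≃+ (E ⧸ U p E f) :=
  ((Cq p E f) ^ k : (E ⧸ U p E f) ≃ₗ[ZMod p] (E ⧸ U p E f)).toAddEquiv

theorem CqP_mk (f : (ZMod p)[X]) (k : ℕ) (z : E) :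
    CqP p E f k ((U p E f).mkQ z) = (U p E f).mkQ (z ^ (p ^ k)) := by
  change ((Cq p E f) ^ k : (E ⧸ U p E f) ≃ₗ[ZMod p] (E ⧸ U p E f)) _ = _
  induction k generalizing z with
  | zero => simp
  | succ k ih => rw [pow_succ, LinearEquiv.mul_apply, Cq_mk, ih, ← pow_mul, ← pow_succ']

theorem CqP_eq (f : (ZMod p)[X]) (k : ℕ) (w : E ⧸ U p E f) :
    CqP p E f k w = ((Cq p E f : (E ⧸ U p E f) →ₗ[ZMod p] (E ⧸ U p E f)) ^ k) w := by
  obtain ⟨z, rfl⟩ := (U p E f).mkQ_surjective w
  rw [CqP_mk]
  induction k generalizing z with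
  | zero => simp
  | succ k ih =>
    have h1 : (Cq p E f : (E ⧸ U p E f) →ₗ[ZMod p] (E ⧸ U p E f)) ((U p E f).mkQ z) =
      (U p E f).mkQ (z ^ p) := Cq_mk p E f z
    rw [pow_succ (Cq p E f : (E ⧸ U p E f) →ₗ[ZMod p] (E ⧸ U p E f)), Module.End.mul_apply,
      h1, ← ih, ← pow_mul, ← pow_succ']

/-- multiplication by a nonzero element -/
def mulE (E : Type) [Field E] (a : E) (ha : a ≠ 0) : E ≃+ E where
  toFun x := a * x
  invFun x := a⁻¹ * x
  left_inv x := inv_mul_cancel_left₀ ha x
  right_inv x := mul_inv_cancel_left₀ ha x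
  map_add' x y := mul_add a x y

end field

/-- the group of all automorphisms -/
def autGroup {V : Type} (B : Set (Set V)) : Subgroup (Equiv.Perm V) where
  carrier := {g | IsAutomorphism B g}
  mul_mem' := by
    intro g h hg hh b
    rw [Equiv.Perm.coe_mul, Set.image_comp]
    exact (hg _).trans (hh b)
  one_mem' := by
    intro b
    simp
  inv_mem' := by
    intro g hg b
    have h1 := hg ((g⁻¹ : Equiv.Perm V) '' b)
    rw [← Set.image_comp, ← Equiv.Perm.coe_mul, mul_inv_cancel, Equiv.Perm.coe_one,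
      Set.image_id] at h1
    exact h1.symm

open Polynomial IntermediateField in
/-- Let `p` be a prime and let `j`, `n` be such that `p ^ j - 1` divides `n` and `j` does not divide
`n` (for instance `p = 2`, `j = 2` and `n` an odd multiple of `3`). There is a non-classical
symmetric `(p ^ j, p ^ (n - j))`-net with an automorphism group `G` which is transitive on ordered
pairs of joined points and also on ordered pairs of distinct non-joined points. -/
theorem result (p j n : ℕ) (hp : p.Prime) (hdiv : p ^ j - 1 ∣ n) (hj : ¬ j ∣ n) :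
    ∃ (V : Type) (B : Set (Set V)) (G : Subgroup (Equiv.Perm V)),
      IsSymmetricNet B (p ^ j) (p ^ (n - j)) ∧
      (∀ g ∈ G, IsAutomorphism B g) ∧
      (∀ x y x' y' : V, Joined B x y → Joined B x' y' → ∃ g ∈ G, g x = x' ∧ g y = y') ∧
      (∀ x y x' y' : V, NonJoined B x y → NonJoined B x' y' → ∃ g ∈ G, g x = x' ∧ g y = y') ∧
      ¬ IsClassical B := by
  have hfact : Fact p.Prime := ⟨hp⟩
  have hn : n ≠ 0 := by
    rintro rfl
    exact hj (dvd_zero j)
  have hj1 : j ≠ 1 := by
    rintro rfl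
    exact hj (one_dvd n)
  have hj0 : j ≠ 0 := by
    rintro rfl
    rw [pow_zero, Nat.sub_self, zero_dvd_iff] at hdiv
    exact hn hdiv
  -- the polynomial
  let K : Type := GaloisField p j
  have hKcard : Nat.card K = p ^ j := GaloisField.card p j hj0
  obtain ⟨u, hu⟩ := IsCyclic.exists_generator (α := Kˣ)
  have hordu : orderOf (u : K) = p ^ j - 1 := by
    rw [orderOf_units, orderOf_eq_card_of_forall_mem_zpowers hu, Nat.card_units, hKcard]
  let f : (ZMod p)[X] := minpoly (ZMod p) (u : K)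
  have hint : IsIntegral (ZMod p) (u : K) := Algebra.IsIntegral.isIntegral _
  have hfirr : Irreducible f := minpoly.irreducible hint
  have hfdeg : f.natDegree = j := by
    have h1 : (ZMod p)⟮(u : K)⟯ = ⊤ := by
      rw [eq_top_iff]
      intro x _
      by_cases hx : x = 0
      · rw [hx]; exact zero_mem _
      · obtain ⟨k, hk⟩ := hu (Units.mk0 x hx)
        have h2 : x = (u : K) ^ k := by
          have := congrArg (fun v : Kˣ => (v : K)) hk
          simp only [Units.val_zpow_eq_zpow_val, Units.val_mk0] at this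
          exact this.symm
        rw [h2]
        exact zpow_mem (IntermediateField.mem_adjoin_simple_self _ _) k
    rw [(Field.primitive_element_iff_minpoly_natDegree_eq (ZMod p) (u : K)).1 h1]
    exact GaloisField.finrank p hj0
  have hfdvd : f ∣ X ^ n - 1 := by
    apply minpoly.dvd
    obtain ⟨k, rfl⟩ := hdiv
    rw [map_sub, map_pow, aeval_X, map_one, ← hordu, pow_mul, pow_orderOf_eq_one, one_pow, sub_self]
  obtain ⟨h, hfh⟩ := hfdvd
  -- the field and the net
  let E : Type := GaloisField p n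
  have hEcard : Nat.card E = p ^ n := GaloisField.card p n hn
  have hWcard : Nat.card (E ⧸ U p E f) = p ^ j := by
    rw [card_quot p E f h n hn hEcard hfh.symm, hfdeg]
  have hWfin : Finite (E ⧸ U p E f) := Finite.of_surjective _ (U p E f).mkQ_surjective
  have hpj : 2 ≤ p ^ j := by
    calc 2 ≤ p := hp.two_le
      _ = p ^ 1 := (pow_one p).symm
      _ ≤ p ^ j := Nat.pow_le_pow_right hp.pos (by omega)
  have hWnt : Nontrivial (E ⧸ U p E f) := by
    rw [← Finite.one_lt_card_iff_nontrivial, hWcard]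
    omega
  have hjn : j < n := by
    have h1 : p ^ j - 1 ≤ n := Nat.le_of_dvd (Nat.pos_of_ne_zero hn) hdiv
    have h2 : j < p ^ j := Nat.lt_pow_self hp.one_lt
    rcases lt_or_eq_of_le (show j ≤ n by omega) with h3 | h3
    · exact h3
    · exact absurd (h3 ▸ dvd_refl j) hj
  have hmul : p ^ j * p ^ (n - j) = p ^ n := by
    rw [← pow_add]; congr 1; omega
  have hsymm : IsSymmetricNet (blocks (beta p E f)) (p ^ j) (p ^ (n - j)) := by
    apply isSymmetricNet_blocks (beta p E f) (beta_surj_left p E f) (beta_surj_right p E f)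
    · exact hWcard
    · rw [hmul, hEcard]
    · rfl
    · rw [hmul]
      have h4 : p ^ 2 ≤ p ^ n := Nat.pow_le_pow_right hp.pos (by omega)
      have h5 : 4 ≤ p ^ 2 := by
        have := hp.two_le
        nlinarith
      omega
  refine ⟨E × (E ⧸ U p E f), blocks (beta p E f), autGroup _, hsymm, fun g hg => hg, ?_, ?_, ?_⟩
  · -- transitivity on joined pairs
    intro x y x' y' hxy hxy'
    rw [joined_iff _ (beta_surj_right p E f)] at hxy hxy'
    obtain ⟨x1, w1⟩ := x
    obtain ⟨y1, v1⟩ := y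
    obtain ⟨x2, w2⟩ := x'
    obtain ⟨y2, v2⟩ := y'
    simp only at hxy hxy'
    have hd1 : x1 - y1 ≠ 0 := sub_ne_zero.2 hxy
    have hd2 : x2 - y2 ≠ 0 := sub_ne_zero.2 hxy'
    obtain ⟨a, ha⟩ : ∃ a, a = (x2 - y2) / (x1 - y1) := ⟨_, rfl⟩
    have ha0 : a ≠ 0 := by rw [ha]; exact div_ne_zero hd2 hd1
    have ha1 : a * (x1 - y1) = x2 - y2 := by rw [ha, div_mul_cancel₀ _ hd1]
    obtain ⟨m, hm⟩ := beta_surj_right p E f (a * (x1 - y1)) (mul_ne_zero ha0 hd1)
      ((w2 - v2) - (w1 - v1))
    simp only at hm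
    refine ⟨autMap (beta p E f) (mulE E a ha0) (AddEquiv.refl _) (x2 - a * x1)
      (w2 - w1 - beta p E f (a * x1) m) m, ?_, ?_, ?_⟩
    · apply autMap_isAutomorphism (beta p E f) (mulE E a ha0) (mulE E a⁻¹ (inv_ne_zero ha0))
      intro x m
      change beta p E f (a * x) (a⁻¹ * m) = beta p E f x m
      rw [beta_apply', beta_apply', mul_mul_mul_comm, mul_inv_cancel₀ ha0, one_mul]
    · change (a * x1 + (x2 - a * x1), w1 + beta p E f (a * x1) m +
        (w2 - w1 - beta p E f (a * x1) m)) = (x2, w2)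
      rw [Prod.mk.injEq]
      constructor <;> abel
    · change (a * y1 + (x2 - a * x1), v1 + beta p E f (a * y1) m +
        (w2 - w1 - beta p E f (a * x1) m)) = (y2, v2)
      rw [Prod.mk.injEq]
      constructor
      · linear_combination -ha1
      · have h6 : beta p E f (a * y1) m = beta p E f (a * x1) m - ((w2 - v2) - (w1 - v1)) := by
          rw [← hm, mul_sub, map_sub, AddMonoidHom.sub_apply]
          abel
        rw [h6]
        abel
  · intro x y x' y' hxy hxy'
    rw [nonJoined_iff _ (beta_surj_right p E f)] at hxy hxy'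
    obtain ⟨x1, w1⟩ := x
    obtain ⟨y1, v1⟩ := y
    obtain ⟨x2, w2⟩ := x'
    obtain ⟨y2, v2⟩ := y'
    simp only at hxy hxy'
    obtain ⟨rfl, hw1⟩ := hxy
    obtain ⟨rfl, hw2⟩ := hxy'
    obtain ⟨k, hk⟩ := transitive_Cq p E f h n hn hEcard hfh.symm hfirr K (u : K)
      (minpoly.aeval _ _) (by rw [hfdeg, hordu]) (w1 - v1) (w2 - v2) (sub_ne_zero.2 hw1)
      (sub_ne_zero.2 hw2)
    rw [← CqP_eq, map_sub] at hk
    refine ⟨autMap (beta p E f) (frP p E k) (CqP p E f k) (x2 - frP p E k x1)
      (w2 - CqP p E f k w1) 0, ?_, ?_, ?_⟩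
    · apply autMap_isAutomorphism (beta p E f) (frP p E k) (frP p E k)
      intro x m
      rw [beta_apply', beta_apply', CqP_mk, frP_apply, frP_apply, mul_pow]
    · change (frP p E k x1 + (x2 - frP p E k x1), CqP p E f k w1 + beta p E f (frP p E k x1) 0 +
        (w2 - CqP p E f k w1)) = (x2, w2)
      rw [Prod.mk.injEq, map_zero]
      constructor <;> abel
    · change (frP p E k x1 + (x2 - frP p E k x1), CqP p E f k v1 + beta p E f (frP p E k x1) 0 +
        (w2 - CqP p E f k w1)) = (x2, v2)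
      rw [Prod.mk.injEq, map_zero]
      constructor
      · abel
      · have h6 : CqP p E f k v1 = CqP p E f k w1 - (w2 - v2) := by rw [← hk]; abel
        rw [h6]; abel
  · intro hcl
    obtain ⟨q, d, h1, h2, h3⟩ := classical_card hcl (b := blk (beta p E f) 0 0) ⟨0, 0, rfl⟩
    rw [blk_ncard] at h2
    rw [Nat.card_prod, hWcard, hEcard] at h1 h2
    have h4 : q = p ^ j := Nat.eq_of_mul_eq_mul_left (pow_pos hp.pos n) h2
    rw [h4, ← pow_add, ← pow_mul] at h1
    have h5 := Nat.pow_right_injective hp.two_le h1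
    apply hj
    have h6 : j ∣ n + j := by rw [h5]; exact dvd_mul_right j d
    exact (Nat.dvd_add_left (dvd_refl j)).1 h6

end Pool.Agent.Results.MP_36fbc5_co.QuotientNets
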